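import Mathlib

/-!
# The algebraic case

If `t` is algebraic over the prime field, every subring containing `t⁻¹` contains `t`.
-/

set_option autoImplicit false

namespace Pool.Agent.HuaFd19

theorem mem_of_algebraic {L : Type*} [Field L] {p : ℕ} [Fact p.Prime] [Algebra (ZMod p) L]
    {t : L} (h : IsAlgebraic (ZMod p) t) {R : Subring L} (hR : t⁻¹ ∈ R) : t ∈ R := by
  have h1 : IsIntegral (ZMod p) t⁻¹ := (IsAlgebraic.inv h).isIntegral
  have h2 : (t⁻¹)⁻¹ ∈ Algebra.adjoin (ZMod p) {t⁻¹} := h1.inv_mem_adjoin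
  rw [inv_inv] at h2
  have h3 : ∀ x ∈ Algebra.adjoin (ZMod p) {t⁻¹}, x ∈ R := by
    intro x hx
    induction hx using Algebra.adjoin_induction with
    | mem x hx =>
      rw [Set.mem_singleton_iff.mp hx]
      exact hR
    | algebraMap r =>
      have h4 : algebraMap (ZMod p) L r = ((ZMod.val r : ℕ) : L) := by
        conv_lhs => rw [← ZMod.natCast_zmod_val r]
        rw [map_natCast]
      rw [h4]
      exact natCast_mem R _
    | add x y _ _ hx hy => exact R.add_mem hx hy
    | mul x y _ _ hx hy => exact R.mul_mem hx hy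
  exact h3 _ h2

/-- the version needed for the periods: `t * t` is in the subring -/
theorem sq_mem_of_algebraic {L : Type*} [Field L] {p : ℕ} [Fact p.Prime] [Algebra (ZMod p) L]
    {t : L} (h : IsAlgebraic (ZMod p) t) {R : Subring L} (hR : t⁻¹ ∈ R) : t * t ∈ R :=
  R.mul_mem (mem_of_algebraic h hR) (mem_of_algebraic h hR)

/-- a transcendental element: the powers of `t` are distinct, and no nonzero polynomial vanishes -/
theorem aeval_ne_of_transcendental {L : Type*} [Field L] {p : ℕ} [Fact p.Prime]
    [Algebra (ZMod p) L] {t : L} (h : ¬ IsAlgebraic (ZMod p) t)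
    {f : Polynomial (ZMod p)} (hf : f ≠ 0) : Polynomial.aeval t f ≠ 0 := by
  intro h1
  exact h ⟨f, hf, h1⟩

end Pool.Agent.HuaFd19
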