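import Mathlib
import Pool.Agent.HuaVal.Lin
import Pool.Agent.HuaVal.Quad
import Pool.Agent.Hua86.LemW

/-!
# Polar forms with a period vanish to third order

If the vector fields `u ↦ U_{u,t} e` have the period `U_t e`, for all units `e` and all points
`t`, then all third differences vanish.
-/

set_option autoImplicit false

namespace Pool.Agent.HuaFd19

open Pool.Agent.HuaVal

section

variable {A : Type*} [AddCommGroup A] {J : A → A → A}

/-- the isotope with unit `i c` -/
lemma H_iso (hJ : JSys J) {e c : A} (he : e ≠ 0) (hc : c ≠ 0) (x : A) :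
    H J e x c = H J (J e c) x (J e c) := by
  have hb : J e c ≠ 0 := J_ne_zero hJ he hc
  rw [Hua86.H_chg hJ hb x c]
  congr 1
  have h := H_inv_self hJ he (J e c)
  rwa [hJ.inv e c he] at h

lemma Pl_iso (hJ : JSys J) {e c : A} (he : e ≠ 0) (hc : c ≠ 0) (x y : A) :
    Pl J e x y c = Pl J (J e c) x y (J e c) := by
  rw [Pl, Pl, ← H_iso hJ he hc, ← H_iso hJ he hc, ← H_iso hJ he hc]

lemma Pl_addr (hJ : JSys J) {e : A} (he : e ≠ 0) (x y c d : A) :
    Pl J e x y (c + d) = Pl J e x y c + Pl J e x y d := by
  rw [Pl, Pl, Pl, H_add hJ he, H_add hJ he, H_add hJ he]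
  abel

variable (hJ : JSys J)
  (hper : ∀ e, e ≠ 0 → ∀ t u, Pl J e (u + H J e t e) t e = Pl J e u t e)

include hJ hper

/-- the period for every vector `c` -/
lemma per_all {e : A} (he : e ≠ 0) (t u c : A) :
    Pl J e (u + H J e t c) t c = Pl J e u t c := by
  by_cases hc : c = 0
  · rw [hc, H_zero_right hJ he, add_zero]
  rw [Pl_iso hJ he hc, Pl_iso hJ he hc, H_iso hJ he hc]
  exact hper _ (J_ne_zero hJ he hc) t u

lemma per_cross {e : A} (he : e ≠ 0) (t u c d : A) :
    Pl J e (u + H J e t d) t c - Pl J e u t c =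
      -(Pl J e (u + H J e t c) t d - Pl J e u t d) := by
  have h := per_all hJ hper he t u (c + d)
  rw [Pl_addr hJ he, Pl_addr hJ he, H_add hJ he] at h
  have h1 := per_all hJ hper he t (u + H J e t d) c
  have h2 := per_all hJ hper he t (u + H J e t c) d
  rw [show u + H J e t d + H J e t c = u + (H J e t c + H J e t d) by abel] at h1
  rw [show u + H J e t c + H J e t d = u + (H J e t c + H J e t d) by abel] at h2
  rw [h1, h2] at h
  linear_combination (norm := abel) h

lemma per_addl {e : A} (he : e ≠ 0) {t : A} (ht : t ≠ 0) (v w c : A) :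
    Pl J e (v + w) t c = Pl J e v t c + Pl J e w t c := by
  have hv := H_right_inv hJ he ht v
  have hw := H_right_inv hJ he ht w
  set v' := H J e (J e t) v with hv'
  set w' := H J e (J e t) w with hw'
  have h0 : Pl J e 0 t c = 0 := by
    rw [Pl, zero_add, H_zero_left]
    abel
  have h1 := per_cross hJ hper he t 0 c (v' + w')
  have h2 := per_cross hJ hper he t 0 c v'
  have h3 := per_cross hJ hper he t 0 c w'
  rw [H_add hJ he, hv, hw, zero_add, zero_add, h0, Pl_addr hJ he, Pl_addr hJ he] at h1
  rw [hv, zero_add, zero_add, h0] at h2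
  rw [hw, zero_add, zero_add, h0] at h3
  linear_combination (norm := abel) h1 - h2 - h3

/-- **the end of the proof**: all third differences vanish -/
theorem T3_of_period : ∀ e, e ≠ 0 → ∀ x y z c, T3 J e x y z c = 0 := by
  intro e he x y z c
  by_cases hz : z = 0
  · rw [hz]
    exact Hua86.T3_zero_right J e x y c
  have h := per_addl hJ hper he hz x y c
  rw [Pl, Pl, Pl] at h
  rw [T3]
  linear_combination (norm := abel) h

end

end Pool.Agent.HuaFd19
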